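import Pool.Agent.H19.Beurling.NonDiscrete
import Pool.Agent.H19.Beurling.Discrete

/-!
# The second dual of a Beurling algebra is never semisimple

For every infinite locally compact (Hausdorff) group `G`, every left Haar measure `μ` on `G` and
every weight `ω` on `G`, the second dual of the Beurling algebra `L¹(G, ω)`, with its first Arens
product, has non-zero Jacobson radical.

* `L1 μ ω` is the Banach algebra `L¹(G, ω)` (file `H19/Beurling/L1.lean`, product in
  `H19/Beurling/Conv.lean`).
* `SecondDual ℂ A` is `A''` with the first Arens product, `IsSemisimple` means that the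
  intersection of the maximal modular left ideals is zero (file `H19/Beurling/Arens.lean`).
* The case of discrete `G` rests on `BeurlingBidual.core` (bounded functions on an infinite group
  with a normalised weight cocycle).
-/

set_option autoImplicit false
set_option maxSynthPendingDepth 5

open MeasureTheory Measure Filter Topology

namespace Pool.Agent.Results.MP_cecf91_an.NeverSemisimple

open Pool.Agent.H19.Beurling

universe u

/-- For every infinite locally compact group `G` and every weight `ω` on `G`, the algebra
`L¹(G, ω)''` with the first Arens product is not semisimple. -/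
theorem result (G : Type u) [Group G] [TopologicalSpace G] [IsTopologicalGroup G] [T2Space G]
    [LocallyCompactSpace G] [MeasurableSpace G] [BorelSpace G] [Infinite G]
    (μ : Measure G) [μ.IsHaarMeasure] [μ.Regular] (ω : Weight G) :
    ¬ IsSemisimple ℂ (SecondDual ℂ (L1 μ ω)) := by
  have key : ∃ D : SecondDual ℂ (L1 μ ω), D ≠ 0 ∧ D * D = 0 ∧
      ∀ X : SecondDual ℂ (L1 μ ω), D * X * D = 0 := by
    by_cases hd : (𝓝[≠] (1 : G)).NeBot
    · obtain ⟨D, hD, h⟩ := nondiscrete_case μ ω
      exact ⟨D, hD, h D, fun X => by rw [mul_assoc, h X, mul_zero]⟩
    · have h1 : IsOpen ({1} : Set G) := by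
        rw [isOpen_singleton_iff_punctured_nhds]
        exact not_neBot.1 hd
      have hdisc : DiscreteTopology G := discreteTopology_of_isOpen_singleton_one h1
      exact discrete_case μ ω
  obtain ⟨D, hD, h1, h2⟩ := key
  intro hss
  have h3 : D ∈ radical ℂ (SecondDual ℂ (L1 μ ω)) := mem_radical h1 h2
  rw [IsSemisimple] at hss
  rw [hss] at h3
  exact hD ((Submodule.mem_bot ℂ).1 h3)

end Pool.Agent.Results.MP_cecf91_an.NeverSemisimple
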